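import Pool.Agent.Helper61.Rigid.Defs

/-!
Rigid permutations: choice of the base vertex and coordinates (helper56). (Problem MP_d067c8_co.)
-/

namespace Pool.Agent.KR56.Rigid

open Pool.Agent.Helper61.Rigid

variable {N : ℕ} [NeZero N]

/-- The position `1, ..., N` of a residue. -/
def pos (x : ZMod N) : ℕ := if x = 0 then N else x.val

theorem pos_one_le (x : ZMod N) : 1 ≤ pos x := by
  unfold pos
  split_ifs with h
  · exact Nat.one_le_iff_ne_zero.mpr (NeZero.ne N)
  · exact Nat.one_le_iff_ne_zero.mpr fun h1 => h ((ZMod.val_eq_zero x).mp h1)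

theorem pos_le (x : ZMod N) : pos x ≤ N := by
  unfold pos
  split_ifs with h
  · exact le_refl _
  · exact (ZMod.val_lt x).le

theorem cast_pos (x : ZMod N) : ((pos x : ℕ) : ZMod N) = x := by
  unfold pos
  split_ifs with h
  · rw [h, ZMod.natCast_self]
  · exact ZMod.natCast_zmod_val x

theorem pos_eq {x : ZMod N} {a : ℕ} (h1 : 1 ≤ a) (h2 : a ≤ N) (h : (a : ZMod N) = x) :
    pos x = a := by
  unfold pos
  rcases Nat.lt_or_ge a N with h3 | h3
  · have h4 : x.val = a := by rw [← h, ZMod.val_natCast, Nat.mod_eq_of_lt h3]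
    have h5 : x ≠ 0 := by
      intro h6
      rw [h6, ZMod.val_zero] at h4
      omega
    rw [if_neg h5, h4]
  · have h4 : a = N := le_antisymm h2 h3
    have h5 : x = 0 := by rw [← h, h4, ZMod.natCast_self]
    rw [if_pos h5, h4]

theorem pos_inj {x y : ZMod N} (h : pos x = pos y) : x = y := by
  rw [← cast_pos x, h, cast_pos]

/-- Going from `x` to `y`. -/
theorem pos_step (x y : ZMod N) :
    pos y = pos x + (y - x).val ∨ pos y + N = pos x + (y - x).val := by
  have h1 : ((pos x + (y - x).val : ℕ) : ZMod N) = y := by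
    rw [Nat.cast_add, cast_pos, ZMod.natCast_zmod_val]
    ring
  have h2 := pos_one_le x
  have h3 := pos_le x
  have h4 := ZMod.val_lt (y - x)
  rcases Nat.lt_or_ge N (pos x + (y - x).val) with h5 | h5
  · right
    have h6 : ((pos x + (y - x).val - N : ℕ) : ZMod N) = y := by
      rw [Nat.cast_sub h5.le, h1, ZMod.natCast_self, sub_zero]
    rw [pos_eq (by omega) (by omega) h6]
    omega
  · left
    exact pos_eq (by omega) h5 h1

theorem val_swap {x y : ZMod N} (h : x ≠ y) : (x - y).val + (y - x).val = N := by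
  have h1 : y - x = -(x - y) := by ring
  have h2 : x - y ≠ 0 := sub_ne_zero.mpr h
  haveI : NeZero (x - y) := ⟨h2⟩
  rw [h1, ZMod.val_neg_of_ne_zero]
  have h3 := ZMod.val_lt (x - y)
  omega

/-- Coordinates of the columns. -/
def sig (f : Equiv.Perm (ZMod N)) (e : ZMod N) (a : ℕ) : ℕ := pos (f (e + a) - f e)

/-- Coordinates of the heights. -/
def tau (f : Equiv.Perm (ZMod N)) (e : ZMod N) (b : ℕ) : ℕ := pos (f.symm (f e + b) - e)

variable {f : Equiv.Perm (ZMod N)} {e : ZMod N}

theorem f_eq (a : ℕ) : f (e + a) = f e + sig f e a := by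
  unfold sig
  rw [cast_pos]
  ring

theorem symm_eq (b : ℕ) : f.symm (f e + b) = e + tau f e b := by
  unfold tau
  rw [cast_pos]
  ring

theorem tau_sig {a : ℕ} (h1 : 1 ≤ a) (h2 : a ≤ N) : tau f e (sig f e a) = a := by
  unfold tau
  rw [← f_eq, Equiv.symm_apply_apply]
  exact pos_eq h1 h2 (by ring)

theorem sig_tau {b : ℕ} (h1 : 1 ≤ b) (h2 : b ≤ N) : sig f e (tau f e b) = b := by
  unfold sig
  rw [← symm_eq, Equiv.apply_symm_apply]
  exact pos_eq h1 h2 (by ring)

theorem sig_self : sig f e N = N := by
  unfold sig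
  rw [ZMod.natCast_self, add_zero, sub_self]
  exact pos_eq (Nat.one_le_iff_ne_zero.mpr (NeZero.ne N)) (le_refl _) (ZMod.natCast_self N)

/-- The length of the step of `f` from `z` to `z + 1`, downwards. -/
def rr (f : Equiv.Perm (ZMod N)) (z : ZMod N) : ℕ := (f z - f (z + 1)).val

theorem sig_step (hN : 1 < N) (a : ℕ) :
    sig f e (a + 1) + rr f (e + a) = sig f e a + N ∨ sig f e (a + 1) + rr f (e + a) = sig f e a := by
  have h1 := pos_step (f (e + a) - f e) (f (e + (a + 1 : ℕ)) - f e)
  have h2 : f (e + (a + 1 : ℕ)) - f e - (f (e + a) - f e) = f (e + a + 1) - f (e + a) := by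
    push_cast
    rw [← add_assoc]
    ring
  have h3 : f (e + a) ≠ f (e + a + 1) := by
    intro h
    have h4 := f.injective h
    haveI : Fact (1 < N) := ⟨hN⟩
    have h5 : (1 : ZMod N) = 0 := by
      have := congrArg (fun x => x - (e + a)) h4
      simpa using this.symm
    exact one_ne_zero h5
  have h4 := val_swap h3
  rw [h2] at h1
  unfold sig rr
  omega

theorem tau_step (b : ℕ) :
    tau f e (b + 1) = tau f e b + (f.symm (f e + b + 1) - f.symm (f e + b)).val ∨
    tau f e (b + 1) + N = tau f e b + (f.symm (f e + b + 1) - f.symm (f e + b)).val := by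
  have h1 := pos_step (f.symm (f e + b) - e) (f.symm (f e + (b + 1 : ℕ)) - e)
  have h2 : f.symm (f e + (b + 1 : ℕ)) - e - (f.symm (f e + b) - e) =
      f.symm (f e + b + 1) - f.symm (f e + b) := by
    push_cast
    rw [← add_assoc]
    ring
  rw [h2] at h1
  exact h1

theorem rr_lt (z : ZMod N) : rr f z < N := ZMod.val_lt _

section

variable (hN : 7 ≤ N) (hodd : N % 2 = 1) (hr : ∀ i, (f i - f (i + 1)).val % 2 = 1)
  (hu : ∀ j, (f.symm (j + 1) - f.symm j).val % 2 = 1)

include hN hr in
theorem sig_one : sig f e 1 + rr f e = N := by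
  have h1 := sig_step (f := f) (e := e) (by omega) 0
  have h2 : sig f e 0 = N := by
    unfold sig
    rw [Nat.cast_zero, add_zero, sub_self]
    exact pos_eq (by omega) (le_refl _) (ZMod.natCast_self N)
  rw [Nat.cast_zero, add_zero, zero_add, h2] at h1
  have h3 := pos_le (f (e + (1 : ℕ)) - f e)
  have h4 := rr_lt (f := f) e
  have h5 : sig f e 1 ≤ N := h3
  have h6 := hr e
  unfold rr at *
  omega

include hN hodd hr hu in
/-- The hypotheses, from the choice of `e`. -/
theorem hyp_of (hmax : ∀ z, rr f z ≤ rr f e)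
    (hz : sig f e 1 ≤ sig f e (tau f e (N - 1) + 1) ∨
      (sig f e (tau f e (N - 1) + 1) + 1 = sig f e 1 ∧ tau f e (sig f e 1 + 1) = 1 + tau f e 1 ∧
        tau f e (sig f e 1 - 1) + tau f e 1 = N + 1)) :
    Hyp N (sig f e) (tau f e) where
  hp := hN
  podd := hodd
  sig_mem a _ _ := ⟨pos_one_le _, pos_le _⟩
  tau_mem b _ _ := ⟨pos_one_le _, pos_le _⟩
  tau_sig a h1 h2 := tau_sig h1 h2
  sig_tau b h1 h2 := sig_tau h1 h2
  sig_p := sig_self
  a_down a _ _ h3 := by
    have h1 := sig_step (f := f) (e := e) (by omega) a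
    have h2 := hr (e + a)
    have h4 := rr_lt (f := f) (e + a)
    unfold rr at *
    omega
  a_up a _ _ h3 := by
    have h1 := sig_step (f := f) (e := e) (by omega) a
    have h2 := hr (e + a)
    unfold rr at *
    omega
  b_up b _ _ h3 := by
    have h1 := tau_step (f := f) (e := e) b
    have h2 := hu (f e + b)
    have h4 := ZMod.val_lt (f.symm (f e + b + 1) - f.symm (f e + b))
    omega
  b_down b _ _ h3 := by
    have h1 := tau_step (f := f) (e := e) b
    have h2 := hu (f e + b)
    omega
  m_even := by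
    have h1 := sig_one (e := e) hN hr
    have h2 := hr e
    unfold rr at h1
    omega
  n_odd := by
    have h1 := tau_step (f := f) (e := e) 0
    have h2 : tau f e 0 = N := by
      unfold tau
      rw [Nat.cast_zero, add_zero, Equiv.symm_apply_apply, sub_self]
      exact pos_eq (by omega) (le_refl _) (ZMod.natCast_self N)
    have h3 := hu (f e + (0 : ℕ))
    have h4 : tau f e (0 + 1) ≤ N := pos_le _
    rw [h2] at h1
    rw [zero_add] at h1 h4
    omega
  nm a _ _ h3 := by
    have h1 := sig_step (f := f) (e := e) (by omega) a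
    have h2 := sig_one (e := e) hN hr
    have h4 := hmax (e + a)
    have h5 : 1 ≤ sig f e a := pos_one_le _
    omega
  nz := hz

include hN hodd hr in
theorem nz_first (he : rr f (f.symm (f e - 1)) < rr f e) :
    sig f e 1 ≤ sig f e (tau f e (N - 1) + 1) := by
  have h1 := sig_step (f := f) (e := e) (by omega) (tau f e (N - 1))
  have h2 : sig f e (tau f e (N - 1)) = N - 1 := sig_tau (by omega) (by omega)
  have h3 : e + (tau f e (N - 1) : ℕ) = f.symm (f e - 1) := by
    rw [← symm_eq, Nat.cast_sub (by omega), ZMod.natCast_self, Nat.cast_one, zero_sub, sub_eq_add_neg]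
  rw [h2, h3] at h1
  have h4 := sig_one (e := e) hN hr
  have h5 := hr e
  have h6 := hr (f.symm (f e - 1))
  have h7 : sig f e (tau f e (N - 1) + 1) ≤ N := pos_le _
  unfold rr at *
  omega

include hN hodd hr hu in
theorem nz_second (he : ∀ z, rr f z = rr f e) :
    sig f e (tau f e (N - 1) + 1) + 1 = sig f e 1 ∧ tau f e (sig f e 1 + 1) = 1 + tau f e 1 ∧
      tau f e (sig f e 1 - 1) + tau f e 1 = N + 1 := by
  have hf : ∀ z, f (z + 1) = f z - rr f e := by
    intro z
    rw [← he z]
    unfold rr
    rw [ZMod.natCast_zmod_val]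
    ring
  have h4 := sig_one (e := e) hN hr
  have h5 := hr e
  have hfn : ∀ (n : ℕ) (z : ZMod N), f (z + n) = f z - n * rr f e := by
    intro n z
    induction n with
    | zero => simp
    | succ n ih =>
      push_cast
      rw [← add_assoc, hf, ih]
      ring
  -- the steps of the inverse are all equal
  have hU : ∀ z : ZMod N, f (z + tau f e 1) = f z + 1 := by
    intro z
    have h6 : f (e + tau f e 1) = f e + 1 := by
      rw [← symm_eq, Equiv.apply_symm_apply, Nat.cast_one]
    rw [hfn] at h6 ⊢
    have h7 : -((tau f e 1 : ℕ) * (rr f e : ZMod N)) = 1 := by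
      have := congrArg (fun x => x - f e) h6
      simpa using this
    rw [sub_eq_add_neg, h7]
  have hm : f (e + 1) = f e + sig f e 1 := by
    have := f_eq (f := f) (e := e) 1
    rwa [Nat.cast_one] at this
  have ht1 : 1 ≤ tau f e 1 := pos_one_le _
  have ht2 : tau f e 1 ≤ N := pos_le _
  have hto : tau f e 1 % 2 = 1 := by
    have h1 := tau_step (f := f) (e := e) 0
    have h2 : tau f e 0 = N := by
      unfold tau
      rw [Nat.cast_zero, add_zero, Equiv.symm_apply_apply, sub_self]
      exact pos_eq (by omega) (le_refl _) (ZMod.natCast_self N)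
    have h3 := hu (f e + (0 : ℕ))
    rw [h2, zero_add] at h1
    omega
  have htN : tau f e 1 ≠ N := by
    intro h
    have h6 := hU e
    rw [h, ZMod.natCast_self, add_zero] at h6
    haveI : Fact (1 < N) := ⟨by omega⟩
    have h7 : (1 : ZMod N) = 0 := by
      have := congrArg (fun x => x - f e) h6
      simpa using this.symm
    exact one_ne_zero h7
  refine ⟨?_, ?_, ?_⟩
  · have h1 := sig_step (f := f) (e := e) (by omega) (tau f e (N - 1))
    have h2 : sig f e (tau f e (N - 1)) = N - 1 := sig_tau (by omega) (by omega)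
    rw [h2, he] at h1
    have h7 : sig f e (tau f e (N - 1) + 1) ≤ N := pos_le _
    have h8 := rr_lt (f := f) e
    unfold rr at *
    omega
  · refine pos_eq (by omega) (by omega) ?_
    have h1 : f e + ((sig f e 1 + 1 : ℕ) : ZMod N) = f (e + 1 + tau f e 1) := by
      rw [hU, hm]
      push_cast
      ring
    rw [h1, Equiv.symm_apply_apply]
    push_cast
    ring
  · have h6 : tau f e (sig f e 1 - 1) = N + 1 - tau f e 1 := by
      refine pos_eq (by omega) (by omega) ?_
      have h1 : f e + ((sig f e 1 - 1 : ℕ) : ZMod N) = f (e + 1 - tau f e 1) := by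
        have h2 := hU (e + 1 - tau f e 1)
        rw [sub_add_cancel, hm] at h2
        have h3 : 1 ≤ sig f e 1 := pos_one_le _
        rw [Nat.cast_sub h3, Nat.cast_one]
        rw [← add_sub_assoc, h2]
        ring
      rw [h1, Equiv.symm_apply_apply, Nat.cast_sub (by omega)]
      push_cast
      rw [ZMod.natCast_self]
      ring
    omega

end

/-- The choice of the base vertex. -/
theorem exists_hyp (f : Equiv.Perm (ZMod N)) (h7 : 7 ≤ N) (hodd : N % 2 = 1)
    (hr : ∀ i, (f i - f (i + 1)).val % 2 = 1)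
    (hu : ∀ j, (f.symm (j + 1) - f.symm j).val % 2 = 1) :
    ∃ (e : ZMod N) (sg tu : ℕ → ℕ), Hyp N sg tu ∧
      ∀ a, 1 ≤ a → a ≤ N → f (e + a) = f e + sg a := by
  obtain ⟨e0, he0⟩ := Finite.exists_max (rr f)
  by_cases hall : ∀ z, rr f z = rr f e0
  · exact ⟨e0, sig f e0, tau f e0, hyp_of h7 hodd hr hu he0 (Or.inr (nz_second h7 hodd hr hu hall)),
      fun a _ _ => f_eq a⟩
  · -- some vertex of maximal step whose predecessor on the second rim has a smaller step
    have hex : ∃ e, rr f e = rr f e0 ∧ rr f (f.symm (f e - 1)) < rr f e0 := by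
      by_contra hcon
      push_neg at hcon
      have h1 : ∀ n : ℕ, rr f (f.symm (f e0 - n)) = rr f e0 := by
        intro n
        induction n with
        | zero => simp
        | succ n ih =>
          have h2 := hcon _ ih
          rw [Equiv.apply_symm_apply] at h2
          have h3 := he0 (f.symm (f e0 - n - 1))
          push_cast
          rw [← sub_sub]
          exact le_antisymm h3 h2
      apply hall
      intro z
      have h2 := h1 (f e0 - f z).val
      rw [ZMod.natCast_zmod_val, sub_sub_cancel, Equiv.symm_apply_apply] at h2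
      exact h2
    obtain ⟨e, he1, he2⟩ := hex
    refine ⟨e, sig f e, tau f e, hyp_of h7 hodd hr hu (fun z => he1 ▸ he0 z)
      (Or.inl (nz_first h7 hodd hr (he1 ▸ he2))), fun a _ _ => f_eq a⟩

end Pool.Agent.KR56.Rigid
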